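import Pool.Agent.R669.Bw.Main

/-!
# Locally constant wreath-like extensions: dynamical systems, torsion
-/

set_option autoImplicit false

namespace Pool.Agent.R669.Bw

open Pool.Agent.Y110.FJ
open Pool.Agent.Y462.SS (Closed Wr)

theorem tf_ext {G Ω B : Type} [Group G] [Group B] (N : Subgroup G) [hN : N.Normal]
    (e : N →* (Ω → B)) (he : Function.Injective e)
    (hB : ∀ g : B, ∀ k : ℕ, 0 < k → g ^ k = 1 → g = 1)
    (hQ : ∀ g : G ⧸ N, ∀ k : ℕ, 0 < k → g ^ k = 1 → g = 1) :
    ∀ g : G, ∀ k : ℕ, 0 < k → g ^ k = 1 → g = 1 := by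
  intro g k hk h
  have h1 : (QuotientGroup.mk g : G ⧸ N) = 1 := by
    refine hQ _ k hk ?_
    rw [← QuotientGroup.mk_pow, h]
    rfl
  have h2 : g ∈ N := (QuotientGroup.eq_one_iff g).1 h1
  have h3 : (⟨g, h2⟩ : N) ^ k = 1 := Subtype.ext h
  have h4 : e ⟨g, h2⟩ = 1 := by
    funext ω
    refine hB _ k hk ?_
    have h5 : e ⟨g, h2⟩ ^ k = 1 := by rw [← map_pow, h3, map_one]
    exact congrFun h5 ω
  have h5 : (⟨g, h2⟩ : N) = 1 := he (by rw [h4, map_one])
  exact congrArg Subtype.val h5

section lc

variable (X Q B : Type) [TopologicalSpace X] [Group Q] [MulAction Q X] [ContinuousConstSMul Q X]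
  [Group B]

/-- the action of `Q` on the locally constant functions on `X` with values in `B` -/
def lcAut : Q →* MulAut (LocallyConstant X B) where
  toFun q :=
    { toFun := fun f => f.comap ⟨fun x => q⁻¹ • x, continuous_const_smul _⟩
      invFun := fun f => f.comap ⟨fun x => q • x, continuous_const_smul _⟩
      left_inv := fun f => by
        ext x
        simp
      right_inv := fun f => by
        ext x
        simp
      map_mul' := fun f g => by
        ext x
        simp }
  map_one' := by
    ext f x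
    simp
  map_mul' q r := by
    ext f x
    simp [mul_smul]

variable {X Q B}

theorem lcAut_apply (q : Q) (f : LocallyConstant X B) (x : X) :
    lcAut X Q B q f x = f (q⁻¹ • x) := rfl

theorem lc_left_inv (g : LocallyConstant X B ⋊[lcAut X Q B] Q) (x : LocallyConstant X B ⋊[lcAut X Q B] Q)
    (hx : x.right = 1) (ω : X) : (g * x * g⁻¹).left (g.right • ω) =
      g.left (g.right • ω) * x.left ω * (g.left (g.right • ω))⁻¹ := by
  rw [SemidirectProduct.mul_left, SemidirectProduct.mul_left, SemidirectProduct.mul_right, hx,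
    SemidirectProduct.inv_left, mul_one]
  show g.left (g.right • ω) * (lcAut X Q B g.right x.left) (g.right • ω) *
    (lcAut X Q B g.right (lcAut X Q B g.right⁻¹ g.left⁻¹)) (g.right • ω) = _
  rw [lcAut_apply, lcAut_apply, lcAut_apply, inv_smul_smul, inv_inv]
  rfl

theorem lc_main [CompactSpace X] (hcrit : S_CRIT) (C : ∀ (G : Type) [Group G], Prop)
    (hC : ClosedE C) (hB : C B) (hQ : C Q) : C (LocallyConstant X B ⋊[lcAut X Q B] Q) := by
  have hsurj : Function.Surjective
      (SemidirectProduct.rightHom : LocallyConstant X B ⋊[lcAut X Q B] Q →* Q) :=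
    SemidirectProduct.rightHom_surjective
  refine main hcrit C hC (LocallyConstant X B ⋊[lcAut X Q B] Q) X B hB
    (SemidirectProduct.rightHom).ker ?_
    { toFun := fun x => ⇑x.1.left
      map_one' := rfl
      map_mul' := ?_ } ?_ ?_ ?_
  · exact hC.base.of_injective _ _
      (QuotientGroup.quotientKerEquivOfSurjective _ hsurj).toMonoidHom
      (MulEquiv.injective _) hQ
  · intro x y
    have hx : x.1.right = 1 := x.2
    funext ω
    show (x.1 * y.1).left ω = x.1.left ω * y.1.left ω
    rw [SemidirectProduct.mul_left, hx, map_one]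
    rfl
  · intro x y hxy
    apply Subtype.ext
    apply SemidirectProduct.ext
    · exact LocallyConstant.coe_injective hxy
    · exact (x.2 : x.1.right = 1).trans (y.2 : y.1.right = 1).symm
  · intro x
    exact LocallyConstant.range_finite x.1.left
  · intro g
    refine ⟨MulAction.toPerm g.right, fun ω => g.left (g.right • ω), ?_, ?_⟩
    · refine Set.Finite.subset (LocallyConstant.range_finite g.left) ?_
      rintro _ ⟨ω, rfl⟩
      exact ⟨_, rfl⟩
    · intro x hx ω
      exact lc_left_inv g x hx ω

theorem lc_tf (hB : ∀ g : B, ∀ k : ℕ, 0 < k → g ^ k = 1 → g = 1)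
    (hQ : ∀ g : Q, ∀ k : ℕ, 0 < k → g ^ k = 1 → g = 1) :
    ∀ g : LocallyConstant X B ⋊[lcAut X Q B] Q, ∀ k : ℕ, 0 < k → g ^ k = 1 → g = 1 := by
  intro g k hk h
  have h1 : g.right = 1 := by
    refine hQ _ k hk ?_
    have : SemidirectProduct.rightHom (g ^ k) = (1 : Q) := by rw [h, map_one]
    rw [map_pow] at this
    exact this
  have h2 : ∀ (m : ℕ) (ω : X), (g ^ m).left ω = g.left ω ^ m ∧ (g ^ m).right = 1 := by
    intro m ω
    induction m with
    | zero => exact ⟨by simp, by simp⟩
    | succ m ih =>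
      rw [pow_succ, SemidirectProduct.mul_left, SemidirectProduct.mul_right, ih.2, h1, map_one]
      refine ⟨?_, mul_one 1⟩
      show (g ^ m).left ω * g.left ω = _
      rw [ih.1, pow_succ]
  apply SemidirectProduct.ext
  · ext ω
    refine hB _ k hk ?_
    rw [← (h2 k ω).1, h]
    rfl
  · exact h1

end lc

end Pool.Agent.R669.Bw
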