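import Pool.Agent.R779.FJ.Col
import Pool.Agent.Y812.SS.Wr

/-!
# Locally constant wreath-like extensions: eventually periodic functions on the integers
-/

set_option autoImplicit false

namespace Pool.Agent.R669.Bw

open Pool.Agent.Y110.FJ
open Pool.Agent.Y462.SS (Closed Wr)

/-- a convenient form of `Realized` -/
theorem realized_of (C : ∀ (G : Type) [Group G], Prop) {G : Type} [Group G] (N : Subgroup G)
    [hN : N.Normal] (g : G) (E : Set G) (hE : E ⊆ N) (P : Type) [iP : Group P] (F : N →* P) (p : P)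
    (hP : C P) (D : Subgroup G) (hD : ∀ x ∈ E, x ∈ D ∧ g * x * g⁻¹ ∈ D)
    (hinj : ∀ x : N, (x : G) ∈ D → F x = 1 → x = 1)
    (hconj : ∀ x (_ : x ∈ E) (hx : x ∈ N) (hy : g * x * g⁻¹ ∈ N),
      F ⟨g * x * g⁻¹, hy⟩ = p * F ⟨x, hx⟩ * p⁻¹) : Realized C g E := by
  have h1 : Subgroup.closure (E ∪ (fun x => g * x * g⁻¹) '' E) ≤ N := by
    rw [Subgroup.closure_le]
    rintro x (hx | ⟨y, hy, rfl⟩)
    · exact hE hx
    · exact hN.conj_mem y (hE hy) g
  have h2 : Subgroup.closure (E ∪ (fun x => g * x * g⁻¹) '' E) ≤ D := by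
    rw [Subgroup.closure_le]
    rintro x (hx | ⟨y, hy, rfl⟩)
    · exact (hD x hx).1
    · exact (hD y hy).2
  refine ⟨P, iP, F.comp (Subgroup.inclusion h1), p, hP, ?_, ?_⟩
  · rw [injective_iff_map_eq_one]
    intro x hx
    have h3 := hinj (Subgroup.inclusion h1 x) (h2 x.2) hx
    apply Subtype.ext
    have h4 : ((Subgroup.inclusion h1 x : N) : G) = ((1 : N) : G) := by rw [h3]
    exact h4
  · intro x y hx hy
    have h3 := hconj x hx (h1 x.2) (hN.conj_mem _ (h1 x.2) g)
    have h4 : Subgroup.inclusion h1 y = ⟨g * (x : G) * g⁻¹, hN.conj_mem _ (h1 x.2) g⟩ :=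
      Subtype.ext hy
    show F (Subgroup.inclusion h1 y) = p * F (Subgroup.inclusion h1 x) * p⁻¹
    rw [h4, h3]
    rfl

section per

variable {α : Type}

theorem per_iter (f : ℤ → α) (p : ℕ) (K : ℤ) (h : ∀ i, K ≤ i → f (i + p) = f i) (i : ℤ)
    (hi : K ≤ i) (m : ℕ) : f (i + m * p) = f i := by
  induction m with
  | zero => simp
  | succ m ih =>
    have h1 : i + ((m + 1 : ℕ) : ℤ) * p = (i + m * p) + p := by push_cast; ring
    have h2 : (0 : ℤ) ≤ m * p := by positivity
    rw [h1, h _ (by linarith), ih]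

/-- a function which is `p`-periodic from `K` on is given by a function on `ZMod p` -/
theorem per_fun (f : ℤ → α) (p : ℕ) [NeZero p] (K : ℤ) (h : ∀ i, K ≤ i → f (i + p) = f i) :
    ∃ g : ZMod p → α, ∀ i, K ≤ i → f i = g (i : ZMod p) := by
  refine ⟨fun j => f (K + ((j - (K : ZMod p)).val : ℤ)), fun i hi => ?_⟩
  obtain ⟨n, hn⟩ := Int.eq_ofNat_of_zero_le (sub_nonneg.2 hi)
  have h1 : ((i : ZMod p) - (K : ZMod p)) = ((n : ℕ) : ZMod p) := by
    have : ((i - K : ℤ) : ZMod p) = ((n : ℤ) : ZMod p) := by rw [hn]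
    push_cast at this
    exact this
  show f i = f (K + (((i : ZMod p) - (K : ZMod p)).val : ℤ))
  rw [h1, ZMod.val_natCast]
  have h2 : i = (K + ((n % p : ℕ) : ℤ)) + ((n / p : ℕ) : ℤ) * p := by
    have h3 : ((n % p : ℕ) : ℤ) + (p : ℤ) * ((n / p : ℕ) : ℤ) = (n : ℤ) := by
      exact_mod_cast Nat.mod_add_div n p
    linarith
  conv_lhs => rw [h2]
  refine per_iter f p K h _ ?_ _
  have : (0 : ℤ) ≤ ((n % p : ℕ) : ℤ) := by positivity
  linarith

/-- the iterates of a self-map of a finite set are eventually periodic -/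
theorem iter_per {T : Type} [Finite T] (f : T → T) :
    ∃ (a p : ℕ), 0 < p ∧ ∀ i, a ≤ i → f^[i + p] = f^[i] := by
  obtain ⟨a, b, hab, h⟩ := Finite.exists_ne_map_eq_of_infinite (fun i : ℕ => f^[i])
  wlog hlt : a < b generalizing a b
  · exact this b a hab.symm h.symm (by omega)
  refine ⟨a, b - a, by omega, fun i hi => ?_⟩
  have h1 : i + (b - a) = (i - a) + b := by omega
  have h2 : i = (i - a) + a := by omega
  rw [h1, Function.iterate_add]
  conv_rhs => rw [h2, Function.iterate_add]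
  exact congrArg (fun g => f^[i - a] ∘ g) h.symm

theorem iter_per_mul {T : Type} (f : T → T) (a p : ℕ) (h : ∀ i, a ≤ i → f^[i + p] = f^[i])
    (m : ℕ) (i : ℕ) (hi : a ≤ i) : f^[i + m * p] = f^[i] := by
  induction m with
  | zero => simp
  | succ m ih =>
    have h1 : i + (m + 1) * p = (i + m * p) + p := by ring
    rw [h1, h _ (le_trans hi (Nat.le_add_right _ _)), ih]

end per

section PP

variable (T : Type) (p : ℕ) (B : Type) [Group B]

/-- the ambient group -/
abbrev Big : Type := Wr (T × ℤ) B × Wr (T × ZMod p) B × Wr (T × ZMod p) B × Multiplicative ℤ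

/-- functions on `T × ℤ` with values in `B` which are `p`-periodic at both ends, with the shift -/
def PP : Subgroup (Big T p B) where
  carrier := {g | (∀ t i, g.1.p (t, i) = (t, i + g.2.2.2.toAdd)) ∧
    (∀ t j, g.2.1.p (t, j) = (t, j + ((g.2.2.2.toAdd : ℤ) : ZMod p))) ∧
    (∀ t j, g.2.2.1.p (t, j) = (t, j + ((g.2.2.2.toAdd : ℤ) : ZMod p))) ∧
    ∃ K : ℤ, ∀ t i, (K ≤ i → g.1.s (t, i) = g.2.1.s (t, (i : ZMod p))) ∧
      (i ≤ -K → g.1.s (t, i) = g.2.2.1.s (t, (i : ZMod p)))}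
  one_mem' := by
    refine ⟨fun t i => ?_, fun t i => ?_, fun t i => ?_, 0, fun t i => ⟨fun _ => rfl, fun _ => rfl⟩⟩
    · simp
    · simp
    · simp
  mul_mem' := by
    rintro a b ⟨ha1, ha2, ha3, Ka, hK⟩ ⟨hb1, hb2, hb3, Kb, hL⟩
    refine ⟨fun t i => ?_, fun t i => ?_, fun t i => ?_, max Kb (Ka + |b.2.2.2.toAdd|), fun t i => ⟨fun h => ?_, fun h => ?_⟩⟩
    · show a.1.p (b.1.p (t, i)) = _
      rw [hb1, ha1]
      simp only [Prod.snd_mul, toAdd_mul]
      rw [add_assoc, add_comm (Multiplicative.toAdd b.2.2.2)]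
    · show a.2.1.p (b.2.1.p (t, i)) = _
      rw [hb2, ha2]
      simp only [Prod.snd_mul, toAdd_mul]
      push_cast
      rw [add_assoc, add_comm (((Multiplicative.toAdd b.2.2.2 : ℤ) : ZMod p))]
    · show a.2.2.1.p (b.2.2.1.p (t, i)) = _
      rw [hb3, ha3]
      simp only [Prod.snd_mul, toAdd_mul]
      push_cast
      rw [add_assoc, add_comm (((Multiplicative.toAdd b.2.2.2 : ℤ) : ZMod p))]
    · show a.1.s (b.1.p (t, i)) * b.1.s (t, i) = a.2.1.s (b.2.1.p (t, (i : ZMod p))) * b.2.1.s (t, (i : ZMod p))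
      have h1 : Kb ≤ i := le_trans (le_max_left _ _) h
      have h2 : Ka + |b.2.2.2.toAdd| ≤ i := le_trans (le_max_right _ _) h
      have h3 := neg_abs_le (b.2.2.2.toAdd)
      rw [hb1, hb2, (hL t i).1 h1, (hK t (i + b.2.2.2.toAdd)).1 (by linarith)]
      push_cast
      rfl
    · show a.1.s (b.1.p (t, i)) * b.1.s (t, i) = a.2.2.1.s (b.2.2.1.p (t, (i : ZMod p))) * b.2.2.1.s (t, (i : ZMod p))
      have h1 : i ≤ -Kb := le_trans h (neg_le_neg (le_max_left _ _))
      have h2 : i ≤ -(Ka + |b.2.2.2.toAdd|) := le_trans h (neg_le_neg (le_max_right _ _))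
      have h3 := le_abs_self (b.2.2.2.toAdd)
      rw [hb1, hb3, (hL t i).2 h1, (hK t (i + b.2.2.2.toAdd)).2 (by linarith)]
      push_cast
      rfl
  inv_mem' := by
    rintro a ⟨ha1, ha2, ha3, Ka, hK⟩
    have e1 : ∀ t i, a.1.p⁻¹ (t, i) = (t, i + -a.2.2.2.toAdd) := by
      intro t i
      rw [Equiv.Perm.inv_eq_iff_eq, ha1]
      simp
    have e2 : ∀ t (i : ZMod p), a.2.1.p⁻¹ (t, i) = (t, i + ((-a.2.2.2.toAdd : ℤ) : ZMod p)) := by
      intro t i
      rw [Equiv.Perm.inv_eq_iff_eq, ha2]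
      simp
    have e3 : ∀ t (i : ZMod p), a.2.2.1.p⁻¹ (t, i) = (t, i + ((-a.2.2.2.toAdd : ℤ) : ZMod p)) := by
      intro t i
      rw [Equiv.Perm.inv_eq_iff_eq, ha3]
      simp
    refine ⟨e1, e2, e3, Ka + |a.2.2.2.toAdd|, fun t i => ⟨fun h => ?_, fun h => ?_⟩⟩
    · show (a.1.s (a.1.p⁻¹ (t, i)))⁻¹ = (a.2.1.s (a.2.1.p⁻¹ (t, (i : ZMod p))))⁻¹
      have h3 := le_abs_self (a.2.2.2.toAdd)
      rw [e1, e2, (hK t (i + -a.2.2.2.toAdd)).1 (by linarith)]
      push_cast
      rfl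
    · show (a.1.s (a.1.p⁻¹ (t, i)))⁻¹ = (a.2.2.1.s (a.2.2.1.p⁻¹ (t, (i : ZMod p))))⁻¹
      have h3 := neg_abs_le (a.2.2.2.toAdd)
      rw [e1, e3, (hK t (i + -a.2.2.2.toAdd)).2 (by linarith)]
      push_cast
      rfl

/-- the periodic parts -/
def prt : PP T p B →* Wr (T × ZMod p) B × Wr (T × ZMod p) B × Multiplicative ℤ where
  toFun g := g.1.2
  map_one' := rfl
  map_mul' := fun _ _ => rfl

variable {T p B}

theorem prt_ker {g : PP T p B} (hg : g ∈ (prt T p B).ker) :
    g.1.1.p = 1 ∧ ∃ K : ℤ, ∀ t i, g.1.1.s (t, i) ≠ 1 → |i| ≤ K := by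
  have h0 : g.1.2 = 1 := hg
  obtain ⟨h1, -, -, K, hK⟩ := g.2
  rw [h0] at h1 hK
  refine ⟨?_, |K|, fun t i hi => ?_⟩
  · apply Equiv.ext
    rintro ⟨t, i⟩
    rw [h1]
    simp
  · by_contra hlt
    push Not at hlt
    apply hi
    rcases le_total 0 i with h | h
    · rw [abs_of_nonneg h] at hlt
      exact (hK t i).1 (by have := le_abs_self K; omega)
    · rw [abs_of_nonpos h] at hlt
      exact (hK t i).2 (by have := le_abs_self K; omega)

/-- the reduction of the kernel to functions on `T × ZMod M` -/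
def redH (M : ℕ) : (prt T p B).ker →* Wr (T × ZMod M) B where
  toFun x := ⟨fun a => x.1.1.1.s (a.1, a.2.valMinAbs), 1⟩
  map_one' := rfl
  map_mul' := by
    intro x y
    apply Wr.ext
    · funext a
      show x.1.1.1.s (y.1.1.1.p (a.1, a.2.valMinAbs)) * y.1.1.1.s (a.1, a.2.valMinAbs) =
        x.1.1.1.s (a.1, a.2.valMinAbs) * y.1.1.1.s (a.1, a.2.valMinAbs)
      rw [(prt_ker y.2).1]
      rfl
    · rfl

/-- elements of the kernel supported in an interval -/
def supp (R : ℤ) : Subgroup (PP T p B) where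
  carrier := {x | x ∈ (prt T p B).ker ∧ ∀ t i, x.1.1.s (t, i) ≠ 1 → |i| ≤ R}
  one_mem' := ⟨one_mem _, fun t i h => absurd rfl h⟩
  mul_mem' := by
    rintro a b ⟨ha, ha'⟩ ⟨hb, hb'⟩
    refine ⟨mul_mem ha hb, fun t i h => ?_⟩
    by_contra hlt
    apply h
    show a.1.1.s (b.1.1.p (t, i)) * b.1.1.s (t, i) = 1
    rw [(prt_ker hb).1]
    by_cases h1 : b.1.1.s (t, i) = 1
    · by_cases h2 : a.1.1.s (t, i) = 1
      · show a.1.1.s (t, i) * b.1.1.s (t, i) = 1
        rw [h1, h2, one_mul]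
      · exact absurd (ha' t i h2) hlt
    · exact absurd (hb' t i h1) hlt
  inv_mem' := by
    rintro a ⟨ha, ha'⟩
    refine ⟨inv_mem ha, fun t i h => ?_⟩
    by_contra hlt
    apply h
    show (a.1.1.s (a.1.1.p⁻¹ (t, i)))⁻¹ = 1
    rw [(prt_ker ha).1]
    by_cases h2 : a.1.1.s (t, i) = 1
    · rw [inv_eq_one]
      exact h2
    · exact absurd (ha' t i h2) hlt

theorem C_PP (hcrit : S_CRIT) (C : ∀ (G : Type) [Group G], Prop) (hC : ClosedE C) (T : Type)
    [Finite T] (p : ℕ) [NeZero p] (B : Type) [Group B] (hB : C B) : C (PP T p B) := by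
  refine hcrit C hC (PP T p B) (prt T p B).ker ?_ ?_
  · have h1 : C (Wr (T × ZMod p) B) :=
      Pool.Agent.Y812.SS.t_wr C hC.base (T × ZMod p) B inferInstance hB
    exact hC.base.of_injective _ _ (QuotientGroup.kerLift (prt T p B))
      (QuotientGroup.kerLift_injective _) (hC.base.prod _ _ h1 (hC.base.prod _ _ h1 hC.base.int))
  · intro g E hE hEN
    obtain ⟨L, hL0, hL⟩ : ∃ L : ℤ, 0 ≤ L ∧ ∀ x ∈ E, ∀ t i, x.1.1.s (t, i) ≠ 1 → |i| ≤ L := by
      have h1 : ∀ x : PP T p B, ∃ K : ℤ, x ∈ E → ∀ t i, x.1.1.s (t, i) ≠ 1 → |i| ≤ K := by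
        intro x
        by_cases hx : x ∈ E
        · obtain ⟨K, hK⟩ := (prt_ker (hEN hx)).2
          exact ⟨K, fun _ => hK⟩
        · exact ⟨0, fun h => absurd h hx⟩
      choose K hK using h1
      obtain ⟨L, hL⟩ := (hE.image K).bddAbove
      refine ⟨max 0 L, le_max_left _ _, fun x hx t i hi => ?_⟩
      exact le_trans (le_trans (hK x hx t i hi) (hL ⟨x, hx, rfl⟩)) (le_max_right _ _)
    obtain ⟨R, hR⟩ := Int.eq_ofNat_of_zero_le (add_nonneg hL0 (abs_nonneg (g.1.2.2.2.toAdd)))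
    have hkR := neg_abs_le (g.1.2.2.2.toAdd)
    have hkR' := le_abs_self (g.1.2.2.2.toAdd)
    have hg := g.2.1
    let M : ℕ := 2 * R + 1
    have hvm : ∀ i : ℤ, |i| ≤ R → ((i : ZMod M)).valMinAbs = i := by
      intro i hi
      rw [ZMod.valMinAbs_spec]
      refine ⟨rfl, ?_⟩
      rw [abs_le] at hi
      have : (M : ℤ) = 2 * R + 1 := by simp [M]
      rw [this]
      exact ⟨by linarith, by linarith⟩
    have hrel : ∀ (x y : PP T p B), x ∈ (prt T p B).ker → y * g = g * x → ∀ t i,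
        y.1.1.s (t, i + g.1.2.2.2.toAdd) * g.1.1.s (t, i) = g.1.1.s (t, i) * x.1.1.s (t, i) := by
      intro x y hx hxy t i
      have h1 : y.1.1.s (g.1.1.p (t, i)) * g.1.1.s (t, i) =
          g.1.1.s (x.1.1.p (t, i)) * x.1.1.s (t, i) :=
        congrFun (congrArg (fun z : PP T p B => z.1.1.s) hxy) (t, i)
      rw [hg, (prt_ker hx).1] at h1
      exact h1
    have hWC : C (Wr (T × ZMod M) B) :=
      Pool.Agent.Y812.SS.t_wr C hC.base (T × ZMod M) B inferInstance hB
    refine realized_of C (prt T p B).ker g E hEN (Wr (T × ZMod M) B) (redH M)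
      ⟨fun a => g.1.1.s (a.1, a.2.valMinAbs),
        (Equiv.refl T).prodCongr (Equiv.addRight ((g.1.2.2.2.toAdd : ℤ) : ZMod M))⟩ hWC
      (supp (R : ℤ)) ?_ ?_ ?_
    · intro x hx
      refine ⟨⟨hEN hx, fun t i hi => ?_⟩, ⟨?_, fun t i hi => ?_⟩⟩
      · have := hL x hx t i hi
        linarith
      · exact (inferInstance : ((prt T p B).ker).Normal).conj_mem x (hEN hx) g
      · have h1 := hrel x (g * x * g⁻¹) (hEN hx) (by group) t (i - g.1.2.2.2.toAdd)
        rw [sub_add_cancel] at h1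
        have h2 : x.1.1.s (t, i - g.1.2.2.2.toAdd) ≠ 1 := by
          intro h3
          rw [h3, mul_one] at h1
          exact hi (mul_eq_right.1 h1)
        have h3 := hL x hx t _ h2
        rw [abs_le] at h3 ⊢
        exact ⟨by linarith [h3.1], by linarith [h3.2]⟩
    · intro x hx hx1
      have hs : ∀ t i, x.1.1.1.s (t, i) = 1 := by
        intro t i
        by_contra hne
        have h1 := hx.2 t i hne
        have h2 : x.1.1.1.s (t, ((i : ZMod M)).valMinAbs) = 1 :=
          congrFun (congrArg Wr.s hx1) (t, (i : ZMod M))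
        rw [hvm i h1] at h2
        exact hne h2
      apply Subtype.ext
      apply Subtype.ext
      apply Prod.ext
      · apply Wr.ext
        · funext a
          exact hs a.1 a.2
        · exact (prt_ker x.2).1
      · exact x.2
    · intro x hxE hx hy
      rw [eq_mul_inv_iff_mul_eq]
      apply Wr.ext
      · funext a
        obtain ⟨t, j⟩ := a
        show (g * x * g⁻¹).1.1.s (t, (j + ((g.1.2.2.2.toAdd : ℤ) : ZMod M)).valMinAbs) *
            g.1.1.s (t, j.valMinAbs) = g.1.1.s (t, j.valMinAbs) * x.1.1.s (t, j.valMinAbs)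
        have hr := hrel x (g * x * g⁻¹) hx (by group) t
        by_cases h1 : x.1.1.s (t, j.valMinAbs) = 1
        · rw [h1, mul_one]
          have h2 : (g * x * g⁻¹).1.1.s (t, (j + ((g.1.2.2.2.toAdd : ℤ) : ZMod M)).valMinAbs) = 1 := by
            by_contra h3
            have h4 := hr ((j + ((g.1.2.2.2.toAdd : ℤ) : ZMod M)).valMinAbs - g.1.2.2.2.toAdd)
            rw [sub_add_cancel] at h4
            have h5 : x.1.1.s (t, (j + ((g.1.2.2.2.toAdd : ℤ) : ZMod M)).valMinAbs -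
                g.1.2.2.2.toAdd) ≠ 1 := by
              intro h6
              rw [h6, mul_one] at h4
              exact h3 (mul_eq_right.1 h4)
            have h6 := hL x hxE t _ h5
            have h7 := hvm _ (by linarith [abs_nonneg (g.1.2.2.2.toAdd)] :
              |(j + ((g.1.2.2.2.toAdd : ℤ) : ZMod M)).valMinAbs - g.1.2.2.2.toAdd| ≤ R)
            push_cast at h7
            rw [add_sub_cancel_right] at h7
            rw [← h7] at h5
            exact h5 h1
          rw [h2, one_mul]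
        · have h2 := hL x hxE t _ h1
          have h3 : (j + ((g.1.2.2.2.toAdd : ℤ) : ZMod M)).valMinAbs =
              j.valMinAbs + g.1.2.2.2.toAdd := by
            have h4 : |j.valMinAbs + g.1.2.2.2.toAdd| ≤ (R : ℤ) := by
              rw [abs_le] at h2 ⊢
              exact ⟨by linarith [h2.1], by linarith [h2.2]⟩
            rw [← hvm _ h4]
            push_cast
            rfl
          rw [h3]
          exact hr _
      · apply Equiv.ext
        rintro ⟨t, j⟩
        rfl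

end PP

end Pool.Agent.R669.Bw
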