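import Pool.Agent.R669.Bw.Basic

/-!
# Locally constant wreath-like extensions
-/

set_option autoImplicit false

namespace Pool.Agent.R669.Bw

open Pool.Agent.Y110.FJ
open Pool.Agent.Y462.SS (Closed Wr)

section path

variable {T : Type}

/-- the bi-infinite path given by a successor function and a predecessor function -/
def pt (sc pd : T → T) (i : ℤ) : T → T := if 0 ≤ i then sc^[i.toNat] else pd^[(-i).toNat]

theorem pt_zero (sc pd : T → T) (t : T) : pt sc pd 0 t = t := by simp [pt]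

theorem pt_succ (sc pd : T → T) (R : T → T → Prop) (h1 : ∀ t, R t (sc t)) (h2 : ∀ t, R (pd t) t)
    (i : ℤ) (t : T) : R (pt sc pd i t) (pt sc pd (i + 1) t) := by
  rcases le_or_gt 0 i with h | h
  · have e1 : (i + 1).toNat = i.toNat + 1 := by omega
    rw [pt, pt, if_pos h, if_pos (by omega), e1, Function.iterate_succ_apply']
    exact h1 _
  · have e1 : (-i).toNat = (-(i + 1)).toNat + 1 := by omega
    rw [pt, if_neg (by omega), e1, Function.iterate_succ_apply']
    rcases eq_or_lt_of_le (show i ≤ -1 by omega) with h3 | h3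
    · subst h3
      exact h2 t
    · rw [pt, if_neg (by omega)]
      exact h2 _

theorem pt_per [Finite T] (sc pd : T → T) : ∃ (K : ℤ) (p : ℕ), 0 < p ∧
    (∀ i, K ≤ i → pt sc pd (i + p) = pt sc pd i) ∧ (∀ i, K ≤ i → pt sc pd (-(i + p)) = pt sc pd (-i)) := by
  obtain ⟨a, p, hp, ha⟩ := iter_per sc
  obtain ⟨b, q, hq, hb⟩ := iter_per pd
  refine ⟨(a + b + 1 : ℕ), p * q, Nat.mul_pos hp hq, fun i hi => ?_, fun i hi => ?_⟩
  · obtain ⟨n, rfl⟩ := Int.eq_ofNat_of_zero_le (le_trans (by positivity) hi)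
    have h1 : ((n : ℤ) + ((p * q : ℕ) : ℤ)).toNat = n + q * p := by
      rw [← Nat.cast_add, Int.toNat_natCast, mul_comm]
    rw [pt, pt, if_pos (by positivity), if_pos (by positivity), h1, Int.toNat_natCast]
    exact iter_per_mul sc a p ha q n (by push_cast at hi; omega)
  · obtain ⟨n, rfl⟩ := Int.eq_ofNat_of_zero_le (le_trans (by positivity) hi)
    have h0 : (0 : ℤ) ≤ ((p * q : ℕ) : ℤ) := by positivity
    have h1 : (-(-((n : ℤ) + ((p * q : ℕ) : ℤ)))).toNat = n + p * q := by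
      rw [neg_neg, ← Nat.cast_add, Int.toNat_natCast]
    have h2 : (-(-(n : ℤ))).toNat = n := by rw [neg_neg, Int.toNat_natCast]
    have h3 : (0 : ℤ) < n := lt_of_lt_of_le (by positivity) hi
    rw [pt, pt, if_neg (by linarith), if_neg (by linarith), h1, h2]
    exact iter_per_mul pd b q hb p n (by push_cast at hi; omega)

end path

/-- **the main theorem**: extensions of a group in the class with a kernel which consists of
finite-valued functions with values in a group in the class, such that the group acts by permutations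
of the points and finite-valued functions -/
theorem main (hcrit : S_CRIT) (C : ∀ (G : Type) [Group G], Prop) (hC : ClosedE C)
    (G Ω B : Type) [Group G] [Group B] (hB : C B) (N : Subgroup G) [hN : N.Normal] (hQ : C (G ⧸ N))
    (e : N →* (Ω → B)) (he : Function.Injective e) (hfin : ∀ x : N, (Set.range (e x)).Finite)
    (hact : ∀ (g : G), ∃ (τ : Equiv.Perm Ω) (n : Ω → B), (Set.range n).Finite ∧
      ∀ (x : G) (hx : x ∈ N) (ω : Ω),
        e ⟨g * x * g⁻¹, hN.conj_mem x hx g⟩ (τ ω) = n ω * e ⟨x, hx⟩ ω * (n ω)⁻¹) : C G := by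
  refine hcrit C hC G N hQ fun g E hE hEN => ?_
  obtain ⟨τ, n, hn, hact⟩ := hact g
  -- the finite set of the elements
  let E' : Set N := {x | (x : G) ∈ E ∨ ∃ y ∈ E, (x : G) = g * y * g⁻¹}
  have hE' : E'.Finite := by
    have h1 : E' ⊆ (Subtype.val ⁻¹' E) ∪ (Subtype.val ⁻¹' ((fun y => g * y * g⁻¹) '' E)) := by
      rintro x (hx | ⟨y, hy, hxy⟩)
      · exact Or.inl hx
      · exact Or.inr ⟨y, hy, hxy.symm⟩
    refine Set.Finite.subset (Set.Finite.union ?_ ?_) h1
    · exact hE.preimage Subtype.val_injective.injOn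
    · exact (hE.image _).preimage Subtype.val_injective.injOn
  have : Finite E' := hE'
  let ty : Ω → (E' → B) × B := fun ω => (fun x => e x.1 ω, n ω)
  have hty : (Set.range ty).Finite := by
    refine Set.Finite.subset ((Set.Finite.pi' (fun x : E' => hfin x.1)).prod hn) ?_
    rintro _ ⟨ω, rfl⟩
    exact ⟨fun x => ⟨ω, rfl⟩, ⟨ω, rfl⟩⟩
  have : Finite (Set.range ty) := hty
  let T : Type := Set.range ty
  have iT : Finite T := hty
  let mk : Ω → T := fun ω => ⟨ty ω, ω, rfl⟩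
  have hmk : ∀ t : T, ∃ ω, mk ω = t := fun ⟨_, ω, h⟩ => ⟨ω, Subtype.ext h⟩
  choose rp hrp using hmk
  let sc : T → T := fun t => mk (τ (rp t))
  let pd : T → T := fun t => mk (τ.symm (rp t))
  let R : T → T → Prop := fun t t' => ∃ ω, mk ω = t ∧ mk (τ ω) = t'
  have hR1 : ∀ t, R t (sc t) := fun t => ⟨rp t, hrp t, rfl⟩
  have hR2 : ∀ t, R (pd t) t := fun t => ⟨τ.symm (rp t), rfl, by
    show mk (τ (τ.symm (rp t))) = t
    rw [Equiv.apply_symm_apply]
    exact hrp t⟩
  obtain ⟨K, p, hp, hper1, hper2⟩ := pt_per sc pd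
  have : NeZero p := ⟨hp.ne'⟩
  obtain ⟨gp, hgp⟩ := per_fun (pt sc pd) p K hper1
  obtain ⟨gm', hgm'⟩ := per_fun (fun i => pt sc pd (-i)) p K hper2
  let gm : ZMod p → T → T := fun j => gm' (-j)
  have hgm : ∀ i : ℤ, i ≤ -K → pt sc pd i = gm (i : ZMod p) := by
    intro i hi
    have h1 := hgm' (-i) (by linarith)
    rw [neg_neg] at h1
    rw [h1]
    show gm' _ = gm' _
    push_cast
    rfl
  -- the values of the elements
  have hval : ∀ (x : G) (hxE : x ∈ E) (hx : x ∈ N) (hy : g * x * g⁻¹ ∈ N) (t t' : T), R t t' →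
      e ⟨g * x * g⁻¹, hy⟩ (rp t') * n (rp t) = n (rp t) * e ⟨x, hx⟩ (rp t) := by
    rintro x hxE hx hy t t' ⟨ω, h1, h2⟩
    have a1 : mk (rp t) = mk ω := (hrp t).trans h1.symm
    have a2 : mk (rp t') = mk (τ ω) := (hrp t').trans h2.symm
    have b1 : ty (rp t) = ty ω := congrArg Subtype.val a1
    have b2 : ty (rp t') = ty (τ ω) := congrArg Subtype.val a2
    have c1 : n (rp t) = n ω := congrArg Prod.snd b1
    have c2 : e ⟨x, hx⟩ (rp t) = e ⟨x, hx⟩ ω :=
      congrFun (congrArg Prod.fst b1) ⟨⟨x, hx⟩, Or.inl hxE⟩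
    have c3 : e ⟨g * x * g⁻¹, hy⟩ (rp t') = e ⟨g * x * g⁻¹, hy⟩ (τ ω) :=
      congrFun (congrArg Prod.fst b2) ⟨⟨g * x * g⁻¹, hy⟩, Or.inr ⟨x, hxE, rfl⟩⟩
    rw [c1, c2, c3, hact x hx ω]
    group
  -- the homomorphism
  let F0 : N →* Big T p B :=
    { toFun := fun x => (⟨fun a => e x (rp (pt sc pd a.2 a.1)), 1⟩, ⟨fun a => e x (rp (gp a.2 a.1)), 1⟩,
        ⟨fun a => e x (rp (gm a.2 a.1)), 1⟩, 1)
      map_one' := by
        rw [map_one]
        rfl
      map_mul' := by
        intro x y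
        rw [map_mul]
        rfl }
  have hF0 : ∀ x, F0 x ∈ PP T p B := by
    intro x
    refine ⟨fun t i => ?_, fun t i => ?_, fun t i => ?_, K, fun t i => ⟨fun h => ?_, fun h => ?_⟩⟩
    · show (t, i) = (t, i + 0)
      rw [add_zero]
    · show (t, i) = (t, i + ((0 : ℤ) : ZMod p))
      simp
    · show (t, i) = (t, i + ((0 : ℤ) : ZMod p))
      simp
    · show e x (rp (pt sc pd i t)) = e x (rp (gp (i : ZMod p) t))
      rw [hgp i h]
    · show e x (rp (pt sc pd i t)) = e x (rp (gm (i : ZMod p) t))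
      rw [hgm i h]
  let q0 : Big T p B := (⟨fun a => n (rp (pt sc pd a.2 a.1)), (Equiv.refl T).prodCongr (Equiv.addRight 1)⟩,
    ⟨fun a => n (rp (gp a.2 a.1)), (Equiv.refl T).prodCongr (Equiv.addRight 1)⟩,
    ⟨fun a => n (rp (gm a.2 a.1)), (Equiv.refl T).prodCongr (Equiv.addRight 1)⟩, Multiplicative.ofAdd 1)
  have hq0 : q0 ∈ PP T p B := by
    refine ⟨fun t i => rfl, fun t i => ?_, fun t i => ?_, K, fun t i => ⟨fun h => ?_, fun h => ?_⟩⟩
    · show (t, i + 1) = (t, i + ((1 : ℤ) : ZMod p))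
      simp
    · show (t, i + 1) = (t, i + ((1 : ℤ) : ZMod p))
      simp
    · show n (rp (pt sc pd i t)) = n (rp (gp (i : ZMod p) t))
      rw [hgp i h]
    · show n (rp (pt sc pd i t)) = n (rp (gm (i : ZMod p) t))
      rw [hgm i h]
  have hRp : ∀ (j : ZMod p) (t : T), R (gp j t) (gp (j + 1) t) := by
    intro j t
    obtain ⟨m, hm⟩ : ∃ m : ℤ, K ≤ m ∧ (m : ZMod p) = j := by
      refine ⟨K + ((j - (K : ZMod p)).val : ℤ), by linarith [Int.natCast_nonneg (j - (K : ZMod p)).val], ?_⟩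
      push_cast
      rw [ZMod.natCast_zmod_val]
      ring
    have h1 := pt_succ sc pd R hR1 hR2 m t
    rw [hgp m hm.1, hgp (m + 1) (by linarith [hm.1])] at h1
    push_cast at h1
    rw [hm.2] at h1
    exact h1
  have hRm : ∀ (j : ZMod p) (t : T), R (gm j t) (gm (j + 1) t) := by
    intro j t
    obtain ⟨m, hm⟩ : ∃ m : ℤ, m + 1 ≤ -K ∧ (m : ZMod p) = j := by
      refine ⟨-K - 1 - (((-(K : ZMod p) - 1) - j).val : ℤ), by
        linarith [Int.natCast_nonneg ((-(K : ZMod p) - 1) - j).val], ?_⟩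
      push_cast
      rw [ZMod.natCast_zmod_val]
      ring
    have h1 := pt_succ sc pd R hR1 hR2 m t
    rw [hgm m (by linarith [hm.1]), hgm (m + 1) hm.1] at h1
    push_cast at h1
    rw [hm.2] at h1
    exact h1
  have hCP : C (PP T p B) := C_PP hcrit C hC T p B hB
  -- the subgroup of the elements which factor through the types
  let D : Subgroup G :=
    { carrier := {x | ∃ hx : x ∈ N, ∀ ω ω', mk ω = mk ω' → e ⟨x, hx⟩ ω = e ⟨x, hx⟩ ω'}
      one_mem' := ⟨N.one_mem, fun ω ω' _ => by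
        have h1 : (⟨1, N.one_mem⟩ : N) = 1 := rfl
        rw [h1, map_one]
        rfl⟩
      mul_mem' := by
        rintro x y ⟨hx, hx'⟩ ⟨hy, hy'⟩
        refine ⟨N.mul_mem hx hy, fun ω ω' h => ?_⟩
        have h1 : (⟨x * y, N.mul_mem hx hy⟩ : N) = ⟨x, hx⟩ * ⟨y, hy⟩ := rfl
        rw [h1, map_mul, Pi.mul_apply, Pi.mul_apply, hx' ω ω' h, hy' ω ω' h]
      inv_mem' := by
        rintro x ⟨hx, hx'⟩
        refine ⟨N.inv_mem hx, fun ω ω' h => ?_⟩
        have h1 : (⟨x⁻¹, N.inv_mem hx⟩ : N) = ⟨x, hx⟩⁻¹ := rfl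
        rw [h1, map_inv, Pi.inv_apply, Pi.inv_apply, hx' ω ω' h] }
  refine realized_of C N g E hEN (PP T p B) (F0.codRestrict (PP T p B) hF0) ⟨q0, hq0⟩ hCP D
    ?_ ?_ ?_
  · intro x hx
    refine ⟨⟨hEN hx, fun ω ω' h => ?_⟩, ⟨hN.conj_mem x (hEN hx) g, fun ω ω' h => ?_⟩⟩
    · exact congrFun (congrArg Prod.fst (congrArg Subtype.val h)) ⟨⟨x, hEN hx⟩, Or.inl hx⟩
    · exact congrFun (congrArg Prod.fst (congrArg Subtype.val h))
        ⟨⟨g * x * g⁻¹, hN.conj_mem x (hEN hx) g⟩, Or.inr ⟨x, hx, rfl⟩⟩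
  · rintro x ⟨hx, hx'⟩ h1
    apply he
    rw [map_one]
    funext ω
    have h2 : F0 x = 1 := congrArg Subtype.val h1
    have h3 : e x (rp (pt sc pd 0 (mk ω))) = 1 :=
      congrFun (congrArg Wr.s (congrArg Prod.fst h2)) (mk ω, 0)
    rw [pt_zero] at h3
    rw [← hx' (rp (mk ω)) ω (hrp (mk ω))]
    exact h3
  · intro x hxE hx hy
    rw [eq_mul_inv_iff_mul_eq]
    apply Subtype.ext
    show F0 ⟨g * x * g⁻¹, hy⟩ * q0 = q0 * F0 ⟨x, hx⟩
    apply Prod.ext
    · apply Wr.ext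
      · funext a
        exact hval x hxE hx hy _ _ (pt_succ sc pd R hR1 hR2 a.2 a.1)
      · rfl
    · apply Prod.ext
      · apply Wr.ext
        · funext a
          exact hval x hxE hx hy _ _ (hRp a.2 a.1)
        · rfl
      · apply Prod.ext
        · apply Wr.ext
          · funext a
            exact hval x hxE hx hy _ _ (hRm a.2 a.1)
          · rfl
        · rfl

end Pool.Agent.R669.Bw
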